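import Pool.Agent.R910.Pow.AJPow

/-!
# MP_386e47_ag: injectivity of the p-adic Abel-Jacobi map, from powers of divisor classes on rational varieties

Let `K` be a number field and `p` a prime number. All varieties are smooth, projective and geometrically integral over
`K`, and `CH ^ i (X)` is the Chow group with rational coefficients; the `p`-adic Abel-Jacobi map goes from the
homologically trivial classes in `CH ^ i (X)` to `H ^ 1 (K, H ^ (2 i - 1) (X, ℚ_p(i)))`.

**Theorem.** These are equivalent.

1. The Abel-Jacobi map is injective on the homologically trivial classes in `CH ^ i (X)` for all varieties `X` over `K`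
   and all `i` (hence on all Chow motives cut out from them).
2. The same for all rational varieties over `K`.
3. If a linear combination `∑ a_s D_s ^ i` of powers of divisor classes on a rational variety over `K` (that is, a
   homogeneous polynomial in divisor classes) is homologically trivial and in the kernel of the Abel-Jacobi map, then
   it is `0`.
4. If `Y` is a rational variety over `K`, `D` is a divisor class on `Y` and `D ^ r` is homologically trivial and in the
   kernel of the Abel-Jacobi map, then `D ^ r = 0` in `CH ^ r (Y)`.

In the Lean statement `𝒮` is the set of all varieties and `ℛ` the set of all rational varieties (or `ℛ = 𝒮`), and these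
structures collect the known theorems which are used.

* `AJData.IsFunctorial`: the Abel-Jacobi map is compatible with pull-back, push-forward and products.
* `HasHulls`: the variety `X` is birational to a hypersurface in `ℙ ^ (n + 1)`; by Hironaka there is a smooth divisor
  `X'` on a rational variety `B'` of dimension `n + 1` with a birational morphism `X' → X`. Let `B` be the blow-up of
  `B' × ℙ ^ 1` in `X' × 0` and `E` its exceptional divisor. Then `p_* i^* i_* p^* w = - w` for `p : E → X' → X` and
  `i : E → B`.
* `HasProjectiveBundles`: vector bundles, their Chern classes and Chern characters (with the identities of Newton),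
  sums, tensor products, Serre's theorem, the isomorphism `ch : K_0(X) → CH(X)` (rationally), and projective bundles:
  they are rational for rational `X`, `q_* ξ ^ (r - 1) = 1`, `q_* ξ ^ i = 0` for `i < r - 1`, `∑ c_i ξ ^ (r - i) = 0`.
-/

open CategoryTheory AlgebraicGeometry
open Pool.Agent.H914 Pool.Agent.H914.VarClass Pool.Agent.H914.VarClass.Obj

universe u v w w'

namespace Pool.Agent.Results.MP_386e47_ag.DivisorPowers

open Pool.Agent.R903 Pool.Agent.R910.Nil Pool.Agent.R910.Pow

/-- **The Abel-Jacobi maps are injective, rationally, if and only if they are injective on powers of divisor classes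
on rational varieties.** -/
theorem result {k : Type u} [Field k] {𝒱 : VarClass k} {C : ChowTheory.{u, v} 𝒱}
    (A : AJData.{u, v, w} C) (hA : A.IsFunctorial) (B : BundleData.{u, v, w'} C)
    (𝒮 ℛ : Set 𝒱.Obj) (hH : HasHulls C 𝒮 ℛ) (hR : HasProjectiveBundles B ℛ) :
    List.TFAE [AJInjective A 𝒮, AJInjective A ℛ, AJInjectiveForPolynomials A ℛ,
      AJInjectiveForPowers A ℛ] :=
  ajInjective_tfae_powers hA hH hR

end Pool.Agent.Results.MP_386e47_ag.DivisorPowers
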