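import Pool.Agent.R910.Pow.AJ

/-!
# MP_386e47_ag: injectivity of the Abel-Jacobi map, from sums of powers of divisors near the middle dimension

Let `k` be an algebraic closure of `ℚ`, `p` a prime number, and let `CH` denote Chow groups with rational coefficients.
For a smooth projective variety `X` over `k`, let `J ^ i (X)` be the direct limit of the groups
`H ^ 1 (L, H ^ (2 i - 1) (X, ℚ_p(i)))` for the number fields `L` over which `X` is defined, and consider the `p`-adic
Abel-Jacobi map from the homologically trivial classes in `CH ^ i (X)` to `J ^ i (X)`. Since restriction to finite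
extensions is injective for Chow groups with rational coefficients and for Galois cohomology with coefficients in
`ℚ_p`-vector spaces, the question Q1 for all number fields and all motives is the question whether this map is
injective for all `X` and `i`.

Let `ℛ` be the set of the varieties over `k` which are obtained from projective spaces by successive blow-ups in smooth
centres.

**Theorem.** For each natural number `j` these are equivalent.

1. The Abel-Jacobi map is injective on `j`-cycles on all `X` of dimension `2 j + 2`.
2. The Abel-Jacobi map is injective on cycles of dimension at most `j` on all `X` of any dimension.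
3. For one `n ≥ 2 j + 2` the Abel-Jacobi map is injective on `j`-cycles on all `X` of dimension `n`.
4. For all `B` in `ℛ` of dimension `2 j + 4`: if a linear combination `∑ a_s D_s ^ (j + 3)` of powers of divisor classes on
   `B` is homologically trivial and in the kernel of the Abel-Jacobi map, then it is `0`.
5. The Abel-Jacobi map is injective on cycles of dimension at most `j + 1` on all `B` in `ℛ` of any dimension.

**Corollary.** The Abel-Jacobi map is injective on all varieties and for all cycles if and only if, for infinitely
many `j`, it is injective on the classes `∑ a_s D_s ^ (j + 2)` on all `B` in `ℛ` of dimension `2 j + 2`.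

For `j = 0`: the `p`-adic Abel-Jacobi map is injective on zero-cycles on all varieties if and only if it is injective
on linear combinations of cubes of divisors on rational fourfolds.

In the Lean statement, `𝒮` is the set of all varieties over `k`, and these structures collect the known theorems.

* `AJData.IsFunctorial`: the Abel-Jacobi map is compatible with pull-back, push-forward and products.
* `HasAJSections`: if `dim X > 2 j + 2`, every `w` in `CH_j(X)` is the push-forward of a class on a smooth hyperplane
  section `Z` of large degree, by Kleiman (smoothing of cycles) and Altman and Kleiman (sections through a smooth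
  subscheme of dimension `j`). For `i = dim Z - j` the maps `H ^ (2 i) (Z) → H ^ (2 i + 2) (X)` and
  `H ^ (2 i - 1) (Z) → H ^ (2 i + 1) (X)` are isomorphisms by the weak Lefschetz theorem, since `2 i - 1 > dim Z`.
* `IsBlowUpFamily`: `X` is birational to a smooth divisor `X'` on some `B'` in `ℛ` of dimension `dim X + 1` (Hironaka);
  let `B` be the blow-up of `B' × ℙ ^ 1` in `X' × 0`. The motive of a blow-up of `Y` in `Z` is the sum of the motive
  of `Y` and of positive Tate twists of the motive of `Z`.
* `SplitsByBlowUps`: for `w` in `CH ^ i (X)` there is a composition `π : X' → X` of blow-ups in smooth centres such that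
  `π^* w` is a linear combination of powers `D ^ i` of divisor classes. Indeed `w = ∑ q_s ch_i(V_s)` for vector bundles
  `V_s`, and by Hironaka there is an `X'` with a morphism to the product of the bundles of complete flags of the
  `V_s`, over which the `V_s` are extensions of line bundles.
-/

open CategoryTheory AlgebraicGeometry
open Pool.Agent.H914 Pool.Agent.H914.VarClass Pool.Agent.H914.VarClass.Obj

universe u v w

namespace Pool.Agent.Results.MP_386e47_ag.MiddleDimension

open Pool.Agent.R903 Pool.Agent.R910.Nil Pool.Agent.R910.Pow

/-- **The Abel-Jacobi map is injective for all cycles if it is injective on sums of powers of divisor classes on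
rational varieties of dimension `2 j + 2`, in dimension `j`, for infinitely many `j`.** -/
theorem result {k : Type u} [Field k] {𝒱 : VarClass k} {C : ChowTheory.{u, v} 𝒱}
    (A : AJData.{u, v, w} C) (hA : A.IsFunctorial)
    (𝒮 ℛ : Set 𝒱.Obj) (hS : HasAJSections A 𝒮) (hR : IsBlowUpFamily C 𝒮 ℛ)
    (hs : SplitsByBlowUps C ℛ) :
    (∀ j, List.TFAE [
      ∀ X ∈ 𝒮, X.dim = 2 * j + 2 → AJInjectiveIn A X j,
      ∀ X ∈ 𝒮, ∀ i ≤ j, AJInjectiveIn A X i,
      ∃ n, 2 * j + 2 ≤ n ∧ ∀ X ∈ 𝒮, X.dim = n → AJInjectiveIn A X j,
      ∀ B ∈ ℛ, B.dim = 2 * j + 4 → AJInjectiveOnPowers A B (j + 3),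
      ∀ B ∈ ℛ, ∀ i ≤ j + 1, AJInjectiveIn A B i]) ∧
    List.TFAE [
      AJInjective A 𝒮,
      AJInjective A ℛ,
      ∀ m, ∃ j, m ≤ j ∧ ∀ X ∈ 𝒮, X.dim = 2 * j + 2 → AJInjectiveIn A X j,
      ∀ m, ∃ j, m ≤ j ∧ ∀ B ∈ ℛ, B.dim = 2 * j + 2 → AJInjectiveOnPowers A B (j + 2)] :=
  ⟨ajInjectiveIn_tfae hA hS hR hs, ajInjective_tfae hA hS hR hs⟩

end Pool.Agent.Results.MP_386e47_ag.MiddleDimension
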