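import Pool.Agent.R882.ZL

/-!
# Injectivity of the p-adic Abel-Jacobi map for motives with a null trace projector: smooth complete intersections in products of projective lines

Let `V` be a component of a smooth complete intersection, of dimension `n` ≥ 1, of `q` hypersurfaces of
multidegrees `(d_{l,a})` in the product of the projective lines with the coordinates `x_a`,
`a = 1, ..., n + q`, with `Σ_l d_{l,a} = m_a + 2`, so that `K_V = O(m_a)`, and let `V 1` be the image of `V`
under the projection which forgets one coordinate `x_{a0}`. Suppose that `p_g(V 1) = 0`. (If `V` is a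
smooth hypersurface then `V 1` is a product of projective lines.)

Let `W` be any variety of dimension `n` and `Ω` an algebraically closed field of transcendence degree
`n` over `ℂ` which contains the function field of `W`. A cycle `Z = ∑ m_i Z_i` of dimension `n` on
`W × V` all of whose components dominate `W` and `V` is the same as a finite integral combination
`c = ∑ c(σ) σ` of embeddings `σ : ℂ(V) → Ω` over `ℂ` which is invariant under the Galois group of `Ω`
over `ℂ(W)`: `Z_i` is an orbit of embeddings with the coefficient `m_i`. The theorem is about all `c`; no
invariance is needed. `[Z]^* = 0` on `H^{n,0}(V)` means that `∑ c(σ) σ^* ω = 0` for all regular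
canonical forms `ω` on `V` (`NullTrace`, `Pool/Agent/R882/ZC.lean`).

The theorem: suppose that `[Z]^* = 0` on `H^{n,0}(V)`, and that the embeddings `σ` with `c(σ) ≠ 0`
have at most `m_a + 1` distinct restrictions to `ℂ(V 1)`, for all `a ≠ a0`; for example, `Z` has at most
`m_a + 1` points over a general point of `W`. Then `c(σ) = c(τ)` for all `σ`, `τ` with the same
restriction to `ℂ(V 1)`, that is, `Z` is the pullback of a cycle on `W × V 1`. Nothing is assumed about
the signs of the coefficients, or about `m_{a0}`.

Application to the question. Let `M = (X, e, n)` be a Chow motive over a number field with `n = dim X`,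
where `X_ℂ = V` is as above with `V 1` unirational (for instance a hypersurface `V` as above), and suppose
that a multiple of `e_ℂ` is the class of a cycle `Z` on `V × V` whose dominant part is as in the theorem,
and `e^* = 0` on `H^{n,0}(X)`, that is, `H^n(M)` has no part of type `(0,n)` or `(n,0)`, up to the twist. Since
`CH_0(V 1) = ℤ`, the cycle `Z_*(w)`, the pullback of a cycle on `V 1`, has a constant class, so the
dominant part of `Z` acts by zero on `CH_0(V)_{hom}` (standard, not formalised here). If there are no other
components then `CH(M)^0 = e_* CH^n(X)_{hom} = 0`, and `AJ_p` is injective for all `p`. (If there are other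
components then `e`, as an idempotent, acts on `CH(M)^0` through zero-cycles on proper subvarieties.)

Proof: the forms `A x_{a0} ^ j Res`, where `Res` is the residue form, `j ≤ m_{a0}` and `A` is a polynomial
of degrees at most `m_a` in the other coordinates, are regular, and by interpolation the points of `Z` over
different points of `V 1` do not interact. Over one point of `V 1` the relations with the powers
`x_{a0} ^ j`, `j < b - 1`, where `b` is the degree of `V` over `V 1`, have a space of solutions of
dimension one, which is given by the full fibre, because the traces of the forms to `V 1` are zero.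

`K` is the function field of `V` and `x` its generic point. `GenusZero`: all canonical forms which are
regular at all prime divisors of all models are zero (`Pool/Agent/R882/HT.lean`).
-/

set_option autoImplicit false
set_option linter.overlappingInstances false

open FF Module MvPolynomial Pool.Agent.W602.GT
open Pool.Agent.R882.HT (GenusZero)
open Pool.Agent.R882.HL (IsSmooth IsGenericPoint)
open Pool.Agent.R882.ZC (NullTrace)

namespace Pool.Agent.Results.MP_386e47_ag.NullTraceLines

/-- The number of the different restrictions to the function field of `V 1`, generated by the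
coordinates `x i`, `i ≠ i0`, of the embeddings which occur in `c`. -/
noncomputable def numBelow {ι K Ω : Type} [Field K] [Algebra ℂ K] [Field Ω] [Algebra ℂ Ω]
    (x : ι → K) (i0 : ι) (c : (K →ₐ[ℂ] Ω) →₀ ℤ) : ℕ :=
  Set.ncard {g : {i // i ≠ i0} → Ω | ∃ σ, c σ ≠ 0 ∧ ∀ i, g i = σ (x i)}

/-- **Cycles with null trace.** Let `V` be a component, with function field `K` and generic point `x`,
of a smooth complete intersection of dimension `n` of hypersurfaces of multidegrees `d k` in a product
of projective lines, with canonical divisor `O(m i)`, such that the image `V 1` of `V` under the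
projection which forgets the coordinate `i0` has geometric genus zero. If an integral combination `c`
of embeddings of `K` in an algebraically closed field of transcendence degree `n` has null trace, with
at most `m i + 1` points over `V 1` for `i ≠ i0`, then it is pulled back from `V 1`. -/
theorem result {n : ℕ} (hn : 1 ≤ n) {q : ℕ} {F : Fin q → MvPolynomial (Fin (n + q)) ℂ}
    {d : Fin q → Fin (n + q) → ℕ} (deg : ∀ k i, (F k).degreeOf i ≤ d k i)
    {m : Fin (n + q) → ℕ} (canonical : ∀ i, ∑ k, d k i = m i + 2) (smooth : IsSmooth d F)
    {K : Type} [Field K] [Algebra ℂ K] {x : Fin (n + q) → K} (point : IsGenericPoint n F x)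
    {i0 : Fin (n + q)} (base : GenusZero (IntermediateField.adjoin ℂ (x '' {i0}ᶜ)) n)
    {Ω : Type} [Field Ω] [Algebra ℂ Ω] [IsAlgClosed Ω] (hΩ : Algebra.trdeg ℂ Ω = (n : ℕ))
    (c : (K →ₐ[ℂ] Ω) →₀ ℤ) (hc : NullTrace n c)
    (positive : ∀ i, i ≠ i0 → numBelow x i0 c ≤ m i + 1) (σ τ : K →ₐ[ℂ] Ω)
    (h : ∀ i, i ≠ i0 → σ (x i) = τ (x i)) : c σ = c τ := by
  classical
  refine Pool.Agent.R882.ZC.lines_cycles hn (by simp) canonical deg smooth point base
    hΩ hc (fun i hi => ?_) h
  refine le_trans (le_of_eq ?_) (positive i hi)
  unfold numBelow
  rw [← Set.ncard_coe_finset]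
  congr 1
  ext g
  rw [Finset.coe_image, Set.mem_image, Set.mem_ofPred_eq]
  constructor
  · rintro ⟨ρ, hρ, rfl⟩
    exact ⟨ρ, Finsupp.mem_support_iff.1 hρ, fun _ => rfl⟩
  · rintro ⟨ρ, hρ, hg⟩
    exact ⟨ρ, Finsupp.mem_support_iff.2 hρ, (funext hg).symm⟩

end Pool.Agent.Results.MP_386e47_ag.NullTraceLines
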