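import Pool.Agent.R898.AKM

/-!
# Injectivity of the `p`-adic Abel–Jacobi map: primitive cycles in the middle dimension

The setting: `K` is a number field, `𝒱` is a class of smooth projective varieties over `K`, closed under
products, `C` stands for the Chow groups with rational coefficients, `W` for a Weil cohomology theory, here
the `p`-adic étale cohomology `H^i(X ⊗ K̄, ℚ_p)` (with trivialised Tate twists); `CH^m(X)_hom = homTriv W X m`.
`A : AJMap W` has the formal properties of the `p`-adic étale Abel–Jacobi map
`AJ_p : CH^m(X)_hom → J^m(X) = H^1(K, H^(2m-1)(X ⊗ K̄, ℚ_p(m)))`: functoriality for correspondences; a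
correspondence which vanishes on `H^(2m-1)(X)` acts as zero on `J^m(X)`.

* `LefStd W X D`: `D` is a divisor class and the standard conjecture of Lefschetz type holds for
  `(X, D)`.
* A *Lefschetz system* for `(X, D)` (`IsSystem`) is an `sl₂`-triple `(Δ_* D, ∑ (j - n) π_j, Λ)` of
  correspondences, the `π_j` being orthogonal idempotents with sum the diagonal. Such systems are known
  for abelian varieties and symmetric ample `D` (Deninger–Murre, Künnemann), for curves and `D` a
  multiple of a rational point, and for products of such pairs with the class `p_1^* D + p_2^* E`.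
  `Good`: there is such a system and `LefStd` holds (it does in the examples).
* `LefOnto W X D`: the maps `D^(n+1-2m) : CH^m(X)_hom → CH^(n+1-m)(X)_hom` are surjective, for all
  `m ≤ (n+1)/2`, `n = dim X`. `ArithLef W X D`: they are bijective (Beilinson's conjecture).
* `AJInjPrim A X D`: if `dim X = 2m - 1` then the Abel–Jacobi map is injective on the `x` in
  `CH^m(X)_hom` with `D x = 0`.

The theorem: let `S` be a class of good pairs, closed under products, with members of all positive
dimensions, such that each `X` in `𝒱` is dominated by a `Z` with `(Z, D)` in `S` (for example the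
products of curves with a rational point, with `𝒱` the varieties dominated by them). The following are
equivalent.

1. `AJ_p` is injective on `CH^m(X)_hom` for all `X` in `𝒱` and all `m`; that is, on the Chow groups of all
   Chow motives `(X, e, m)` with `X` in `𝒱`.
2. `LefOnto` and `AJInjPrim` hold for the pairs in `S`.
3. `ArithLef` and `AJInjPrim` hold for the pairs in `S`.
4. `LefOnto` and `AJInjPrim` hold for all `X` in `𝒱` and all `D` with `LefStd`.

As `LefOnto` does not depend on `p` (`CH^m(X)_hom` does not), the dependence on `p` of the question is
concentrated in the primitive cycles of codimension `m` on varieties of dimension `2m - 1`.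
The proof is the one of `MP_e28333_ag.PrimitiveCycles` by helper898, whose files are imported here.
-/

open Pool.Agent.H914 Pool.Agent.R903 Pool.Agent.R898.HL Pool.Agent.R898.AK

universe u v w

/-- Injectivity of the `p`-adic Abel–Jacobi map and primitive cycles in the middle dimension. -/
theorem Pool.Agent.Results.MP_386e47_ag.PrimitiveCycles.result {K : Type u} [Field K] [NumberField K]
    {𝒱 : VarClass K} (C : ChowTheory.{u, v} 𝒱) (hPol : C.Polarized) (W : WeilTheory.{u, v, w} C)
    (A : AJMap W) (S : ∀ X : 𝒱.Obj, C.CH X → Prop) (hS : IsFullClass W S) :
    [∀ (X : 𝒱.Obj) (m : ℕ), AJInj A X m,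
      ∀ X D, S X D → LefOnto W X D ∧ AJInjPrim A X D,
      ∀ X D, S X D → ArithLef W X D ∧ AJInjPrim A X D,
      ∀ (X : 𝒱.Obj) (D : C.CH X), LefStd W X D → LefOnto W X D ∧ AJInjPrim A X D].TFAE :=
  tfae hPol A hS
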